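import Pool.Agent.Zk67.NP2.Base
import Pool.Agent.Helper112.Arith

/-!
# Module BIG: the sum over the fractions with denominators `Q ≤ q < 2 Q`
-/

set_option autoImplicit false

namespace Pool.Agent.Zk67.NP2.BIG

open Finset Filter Topology Pool.Agent.Helper112 Pool.Agent.Zk46.NP2 Pool.Agent.Zk67.NP2
open Pool.Agent.W89.PW (fr)
open Pool.Agent.H39R3.PB (ph pts apts ph_nonneg ph_le_one ph_add_int pts_nonneg pts_mono pts_add
  pts_mul_left pts_sum dilate coprime_b)

/-- the basic bound -/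
theorem big' {b : ℕ} {t : ℕ → ℕ} (L k K J Q : ℕ) (T lam V R : ℝ) (h0 : 0 < lam)
    (hG : ∀ i : ℕ, pts b Q (fun α => ∏ c ∈ SS L J K i, fa b t L c α) ≤ 2 * Q * (V + T))
    (hLS : pts b Q (fun α => Fn b t L J α ^ 2) ≤ R)
    (hJk : J ≤ k * K) (hJL : J ≤ L) :
    pts b Q (Fn b t L L) ≤ 2 * k * lam * Q * (V + T) + R / lam ^ k := by
  have e1 : pts b Q (Fn b t L L) ≤ ∑ i ∈ range k, lam * pts b Q (fun α =>
      ∏ c ∈ SS L J K i, fa b t L c α) +
      (lam ^ k)⁻¹ * pts b Q (fun α => Fn b t L J α ^ 2) := by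
    refine (pts_mono (split' L J k K lam h0 hJk hJL)).trans (le_of_eq ?_)
    rw [pts_add, pts_sum, pts_mul_left]
    congr 1
    apply sum_congr rfl
    intro i _
    rw [pts_mul_left]
  have e3 : ∀ i ∈ range k, lam * pts b Q (fun α =>
      ∏ c ∈ SS L J K i, fa b t L c α) ≤ lam * (2 * Q * (V + T)) := by
    intro i _
    exact mul_le_mul_of_nonneg_left (hG i) h0.le
  calc pts b Q (Fn b t L L) ≤ ∑ i ∈ range k, lam * pts b Q (fun α =>
      ∏ c ∈ SS L J K i, fa b t L c α) +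
      (lam ^ k)⁻¹ * pts b Q (fun α => Fn b t L J α ^ 2) := e1
    _ ≤ ∑ i ∈ range k, lam * (2 * Q * (V + T)) + (lam ^ k)⁻¹ * R := by
        apply add_le_add (sum_le_sum e3)
        exact mul_le_mul_of_nonneg_left hLS (by positivity)
    _ = _ := by
        rw [sum_const, card_range, nsmul_eq_mul]
        ring

theorem thm (hTM : S_MEAN) (hTL : S_LS) : S_BIG := by
  intro b η τ κ K hP
  obtain ⟨hb64, hη, hτ0, hτ1, hκ, hK1, htwo, hsq, hlev⟩ := hP
  have hb4 : 4 ≤ b := by omega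
  have hbone : 1 ≤ b := by omega
  have hbN : 1 < b := by omega
  have hb64r : (64 : ℝ) ≤ b := by exact_mod_cast hb64
  have hb0 : (0 : ℝ) < b := by linarith
  have hb1 : (1 : ℝ) < b := by linarith
  have hlb : 0 < Real.log b := Real.log_pos hb1
  have hK0 : 0 < K := by linarith
  have hCC2 : 2 ≤ CC b := by
    unfold CC
    nlinarith
  have hCC0 : 0 < CC b := by linarith
  set lb : ℝ := Real.log b with hlbdef
  set lc : ℝ := Real.log (CC b) with hlc
  have hlc2 : Real.log 2 ≤ lc := Real.log_le_log (by norm_num) hCC2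
  -- `ρ`
  have hlev' : κ * lb + lc < (1 + τ) * lb := by
    have h1 := Real.log_lt_log (by positivity) hlev
    rwa [Real.log_mul (by positivity) hCC0.ne', Real.log_rpow hb0, Real.log_rpow hb0] at h1
  set ρ : ℝ := (1 + τ - κ) - lc / lb with hρ
  have hρlb : ρ * lb = (1 + τ - κ) * lb - lc := by
    rw [hρ, sub_mul, div_mul_cancel₀ _ hlb.ne']
  have hρ0 : 0 < ρ := by
    have : 0 < ρ * lb := by rw [hρlb]; linarith
    exact pos_of_mul_pos_left this hlb.le
  -- `γ`
  have htwo' : Real.log 2 < η * lb := by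
    have h1 := Real.log_lt_log (by norm_num) htwo
    rwa [Real.log_rpow hb0] at h1
  set γ : ℝ := η - Real.log 2 / lb with hγ
  have hγlb : γ * lb = η * lb - Real.log 2 := by
    rw [hγ, sub_mul, div_mul_cancel₀ _ hlb.ne']
  have hγ0 : 0 < γ := by
    have : 0 < γ * lb := by rw [hγlb]; linarith
    exact pos_of_mul_pos_left this hlb.le
  -- the number of blocks
  obtain ⟨k, hk⟩ := exists_nat_ge (2 / ρ + 1)
  have hk1 : (1 : ℝ) ≤ k := by
    have : 0 ≤ 2 / ρ := by positivity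
    linarith
  have hk0 : (0 : ℝ) < k := by linarith
  have hkN : 1 ≤ k := by exact_mod_cast hk1
  have hkρ : 2 ≤ ρ * k := by
    have h1 : 2 / ρ ≤ k := by linarith
    rw [div_le_iff₀ hρ0] at h1
    linarith
  -- exponents
  set η' : ℝ := min γ (ρ / κ) / (k + 1) with hη'
  have hmin0 : 0 < min γ (ρ / κ) := lt_min hγ0 (by positivity)
  have hη'0 : 0 < η' := by positivity
  have hη'e : (k + 1) * η' = min γ (ρ / κ) := by rw [hη']; field_simp
  have hη'γ : (k + 1) * η' ≤ γ := by rw [hη'e]; exact min_le_left _ _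
  have hη'ρ : (k + 1) * η' ≤ ρ / κ := by rw [hη'e]; exact min_le_right _ _
  set ε : ℝ := η' / 16 with hε
  have hε0 : 0 < ε := by positivity
  obtain ⟨C0, hC0, hτ⟩ := divisor_bound ε hε0
  set δ : ℝ := min (η' / 2) (1 / 2) with hδ
  have hδ0 : 0 < δ := lt_min (by positivity) (by norm_num)
  have hδ1 : δ ≤ 1 / 2 := min_le_right _ _
  have hδη : δ ≤ η' / 2 := min_le_left _ _
  set C1 : ℝ := K * (b : ℝ) ^ 2 with hC1
  have hC10 : 0 < C1 := by positivity
  have hC11 : 1 ≤ C1 := by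
    rw [hC1]
    nlinarith [one_le_pow₀ hb1.le (n := 2)]
  set C2 : ℝ := C0 * ((b : ℝ) ^ 11) ^ ε with hC2
  have hC20 : 0 < C2 := by positivity
  refine ⟨2 * k * (C1 + C2) + 12 * ((b : ℝ) ^ 5 + 4) * K, δ, by positivity, hδ0, by linarith, ?_⟩
  intro L t hAdm Q hQ hQL
  obtain ⟨hok, hcen, htot⟩ := hAdm
  have htpos : ∀ c, (0 : ℝ) < t c := fun c => by exact_mod_cast (hok c).1
  have hQ1 : (1 : ℝ) ≤ Q := by exact_mod_cast hQ
  have hQ0 : (0 : ℝ) < Q := by linarith
  have hlQ0 : 0 ≤ Real.log Q := Real.log_nonneg hQ1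
  have hpos2 : 0 ≤ 2 * k * (C1 + C2) + 12 * ((b : ℝ) ^ 5 + 4) * K := by positivity
  have hlQL : Real.log Q ≤ κ * L * lb := by
    have := Real.log_le_log hQ0 hQL
    rwa [Real.log_rpow hb0] at this
  set J' : ℕ := Nat.log b Q + 1 with hJ'
  have f1 : Q < b ^ J' := Nat.lt_pow_succ_log_self hbN Q
  have f2 : b ^ J' ≤ b * Q := by
    rw [hJ', pow_succ, mul_comm]
    exact Nat.mul_le_mul_left b (Nat.pow_log_le_self b (by omega))
  have f1r : (Q : ℝ) ≤ (b : ℝ) ^ J' := by exact_mod_cast f1.le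
  have f2r : (b : ℝ) ^ J' ≤ b * Q := by exact_mod_cast f2
  have hJ'1 : 1 ≤ J' := by omega
  have hlQJ : Real.log Q ≤ J' * lb := by
    have := Real.log_le_log hQ0 f1r
    rwa [Real.log_pow] at this
  set J : ℕ := min L J' with hJ
  set M : ℕ := min L (4 * J') with hM
  have hJL : J ≤ L := min_le_left _ _
  have hJJ' : J ≤ J' := min_le_right _ _
  have hML : M ≤ L := min_le_left _ _
  have hMJ' : M ≤ 4 * J' := min_le_right _ _
  have hJM : J ≤ M := le_min hJL (by omega)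
  set B : ℕ := J / k + 1 with hB
  have hB0 : 0 < B := Nat.succ_pos _
  have hJB : J ≤ k * B := by
    rw [hB]
    exact (Nat.lt_mul_div_succ J (show 0 < k by omega)).le
  have hBr : (B : ℝ) ≤ J / k + 1 := by
    rw [hB]
    push_cast
    have := Nat.cast_div_le (α := ℝ) (m := J) (n := k)
    linarith
  have hBJ : B ≤ J + 1 := by
    rw [hB]
    have := Nat.div_le_self J k
    omega
  -- the main term
  have hmain : ∀ i : ℕ, (Q : ℝ) * ∏ c ∈ SS M J B i, (CC b / (b * t c)) ≤ C1 := by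
    intro i
    rcases le_total L (4 * J') with h | h
    · have hMeq : M = L := min_eq_left h
      rw [hMeq]
      have h1 := prod_SS_all hbone hok L J B i hB0
      have h2 : 0 < ∏ c ∈ range L, (t c : ℝ) := prod_pos fun c _ => htpos c
      have h3 : 1 / ∏ c ∈ range L, (t c : ℝ) ≤ K / (b : ℝ) ^ (τ * L) := by
        rw [div_le_div_iff₀ h2 (by positivity)]
        linarith
      have h4 : (b : ℝ) ^ (κ * L) * ((b : ℝ) ^ (2 * B) * (CC b / b) ^ L) ≤ (b : ℝ) ^ (τ * L) * (b : ℝ) ^ 2 := by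
        rw [← Real.log_le_log_iff (by positivity) (by positivity), Real.log_mul (by positivity) (by positivity),
          Real.log_mul (by positivity) (by positivity), Real.log_mul (by positivity) (by positivity),
          Real.log_rpow hb0, Real.log_rpow hb0, Real.log_pow, Real.log_pow, Real.log_pow,
          Real.log_div hCC0.ne' hb0.ne']
        push_cast
        have h5 : (2 : ℝ) * B ≤ ρ * L + 2 := by
          have h6 : (J : ℝ) ≤ L := by exact_mod_cast hJL
          have h7 : (J : ℝ) / k ≤ L / k := by gcongr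
          have h8 : (2 : ℝ) * (L / k) ≤ ρ * L := by
            rw [← mul_div_assoc, div_le_iff₀ hk0]
            have : (2 : ℝ) * L ≤ (ρ * k) * L := mul_le_mul_of_nonneg_right hkρ (Nat.cast_nonneg L)
            linarith
          linarith
        have h9 : (2 : ℝ) * B * lb ≤ (ρ * L + 2) * lb := mul_le_mul_of_nonneg_right h5 hlb.le
        have h10 : ρ * L * lb = ((1 + τ - κ) * lb - lc) * L := by
          rw [← hρlb]; ring
        linarith
      calc (Q : ℝ) * ∏ c ∈ SS L J B i, (CC b / (b * t c))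
          ≤ (b : ℝ) ^ (κ * L) * ((b : ℝ) ^ (2 * B) * ((CC b / b) ^ L / ∏ c ∈ range L, (t c : ℝ))) := by
            apply mul_le_mul hQL h1 _ (by positivity)
            apply prod_nonneg
            intro c _
            have := htpos c
            positivity
        _ = ((b : ℝ) ^ (κ * L) * ((b : ℝ) ^ (2 * B) * (CC b / b) ^ L)) * (1 / ∏ c ∈ range L, (t c : ℝ)) := by
            ring
        _ ≤ ((b : ℝ) ^ (τ * L) * (b : ℝ) ^ 2) * (K / (b : ℝ) ^ (τ * L)) := by
            apply mul_le_mul h4 h3 (by positivity) (by positivity)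
        _ = C1 := by
            rw [hC1]
            field_simp
    · have hMeq : M = 4 * J' := min_eq_right h
      have h1 := prod_SS_many hbone hok hsq M J B i J' hB0 (by omega)
      calc (Q : ℝ) * ∏ c ∈ SS M J B i, (CC b / (b * t c)) ≤ (b : ℝ) ^ J' * (1 / (b : ℝ) ^ J') := by
            apply mul_le_mul f1r h1 _ (by positivity)
            apply prod_nonneg
            intro c _
            have := htpos c
            positivity
        _ = 1 := by field_simp
        _ ≤ C1 := hC11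
  -- the divisor bound
  set T : ℝ := C2 * (Q : ℝ) ^ (η' / 2) with hT
  have hTp : ∀ n : ℕ, 1 ≤ n → n ≤ b ^ (2 * M + 3) → (n.divisors.card : ℝ) ≤ T := by
    intro n hn1 hn2
    refine (hτ n hn1).trans ?_
    have h1 : (n : ℝ) ≤ (b : ℝ) ^ 11 * (Q : ℝ) ^ 8 := by
      calc (n : ℝ) ≤ (b : ℝ) ^ (2 * M + 3) := by exact_mod_cast hn2
        _ ≤ (b : ℝ) ^ (8 * J' + 3) := pow_le_pow_right₀ hb1.le (by omega)
        _ = ((b : ℝ) ^ J') ^ 8 * (b : ℝ) ^ 3 := by rw [← pow_mul, ← pow_add]; congr 1; ring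
        _ ≤ (b * Q : ℝ) ^ 8 * (b : ℝ) ^ 3 := by gcongr
        _ = _ := by ring
    have h2 : (n : ℝ) ^ ε ≤ ((b : ℝ) ^ 11 * (Q : ℝ) ^ 8) ^ ε :=
      Real.rpow_le_rpow (by positivity) h1 hε0.le
    have h3 : ((b : ℝ) ^ 11 * (Q : ℝ) ^ 8) ^ ε = ((b : ℝ) ^ 11) ^ ε * (Q : ℝ) ^ (η' / 2) := by
      rw [Real.mul_rpow (by positivity) (by positivity)]
      congr 1
      rw [← Real.rpow_natCast (Q : ℝ), ← Real.rpow_mul hQ0.le]
      congr 1
      push_cast
      rw [hε]
      ring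
    rw [h3] at h2
    calc C0 * (n : ℝ) ^ ε ≤ C0 * (((b : ℝ) ^ 11) ^ ε * (Q : ℝ) ^ (η' / 2)) :=
          mul_le_mul_of_nonneg_left h2 hC0.le
      _ = T := by rw [hT, hC2]; ring
  set lam : ℝ := (Q : ℝ) ^ (-η') with hlam
  have hlam0 : 0 < lam := by positivity
  have hG : ∀ i : ℕ, pts b Q (fun α => ∏ c ∈ SS M J B i, fa b t M c α) ≤ 2 * Q * (C1 + T) := by
    intro i
    refine ((hTM b t hb4 hok M T (SS M J B i) (SS_sub _ _ _ _) hTp).1 Q).trans ?_
    have := hmain i
    gcongr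
  have hLS := (hTL b t hb4 hok M J hJM).1 Q hQ
    ((Nat.pow_le_pow_right (by omega) hJJ').trans f2)
  have hbig := big' M k B J Q T lam C1 _ hlam0 hG hLS hJB hJM
  -- the second moment
  have hsec0 : (Q : ℝ) ^ 2 * ∏ c ∈ range J, (1 / ((sz b t c : ℝ) * t c)) ≤ K * (Q : ℝ) ^ (1 - (k + 1) * η') := by
    have h1 := prod_sz_le hbone hok J
    have h2 : 0 < ∏ c ∈ range J, (t c : ℝ) := prod_pos fun c _ => htpos c
    rcases le_total L J' with h | h
    · have hJeq : J = L := min_eq_left h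
      rw [hJeq] at h1 h2 ⊢
      have h3 : 1 / ∏ c ∈ range L, (t c : ℝ) ≤ K / (b : ℝ) ^ (τ * L) := by
        rw [div_le_div_iff₀ h2 (by positivity)]
        linarith
      have h4 : (Q : ℝ) ^ 2 * (2 / b) ^ L ≤ (b : ℝ) ^ (τ * L) * (Q : ℝ) ^ (1 - ρ / κ) := by
        rw [← Real.log_le_log_iff (by positivity) (by positivity), Real.log_mul (by positivity) (by positivity),
          Real.log_mul (by positivity) (by positivity), Real.log_rpow hb0, Real.log_rpow hQ0, Real.log_pow,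
          Real.log_pow, Real.log_div (by norm_num) hb0.ne']
        push_cast
        have h5 : (1 + ρ / κ) * Real.log Q ≤ (κ + ρ) * lb * L := by
          calc (1 + ρ / κ) * Real.log Q ≤ (1 + ρ / κ) * (κ * L * lb) :=
                mul_le_mul_of_nonneg_left hlQL (by positivity)
            _ = (κ + ρ) * lb * L := by field_simp
        have h6 : (κ + ρ) * lb = (1 + τ) * lb - lc := by
          have : (κ + ρ) * lb = κ * lb + ρ * lb := by ring
          rw [this, hρlb]; ring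
        rw [h6] at h5
        have h7 : Real.log 2 * L ≤ lc * L := mul_le_mul_of_nonneg_right hlc2 (Nat.cast_nonneg L)
        linarith
      calc (Q : ℝ) ^ 2 * ∏ c ∈ range L, (1 / ((sz b t c : ℝ) * t c))
          ≤ (Q : ℝ) ^ 2 * ((2 / b) ^ L / ∏ c ∈ range L, (t c : ℝ)) := by gcongr
        _ = ((Q : ℝ) ^ 2 * (2 / b) ^ L) * (1 / ∏ c ∈ range L, (t c : ℝ)) := by ring
        _ ≤ ((b : ℝ) ^ (τ * L) * (Q : ℝ) ^ (1 - ρ / κ)) * (K / (b : ℝ) ^ (τ * L)) :=
            mul_le_mul h4 h3 (by positivity) (by positivity)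
        _ = K * (Q : ℝ) ^ (1 - ρ / κ) := by field_simp
        _ ≤ _ := by
            apply mul_le_mul_of_nonneg_left _ hK0.le
            exact Real.rpow_le_rpow_of_exponent_le hQ1 (by linarith)
    · have hJeq : J = J' := min_eq_right h
      have h3 : 1 / ∏ c ∈ range J, (t c : ℝ) ≤ K / (b : ℝ) ^ (η * J) := by
        rw [div_le_div_iff₀ h2 (by positivity)]
        have := hcen J hJL
        linarith
      have h4 : (Q : ℝ) ^ 2 * (2 / b) ^ J ≤ (b : ℝ) ^ (η * J) * (Q : ℝ) ^ (1 - γ) := by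
        rw [← Real.log_le_log_iff (by positivity) (by positivity), Real.log_mul (by positivity) (by positivity),
          Real.log_mul (by positivity) (by positivity), Real.log_rpow hb0, Real.log_rpow hQ0, Real.log_pow,
          Real.log_pow, Real.log_div (by norm_num) hb0.ne']
        push_cast
        have h5 : (1 + γ) * Real.log Q ≤ (1 + γ) * (J * lb) := by
          rw [hJeq]
          exact mul_le_mul_of_nonneg_left hlQJ (by positivity)
        have h6 : (1 + γ) * (J * lb) = J * lb + J * (γ * lb) := by ring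
        rw [h6, hγlb] at h5
        linarith
      calc (Q : ℝ) ^ 2 * ∏ c ∈ range J, (1 / ((sz b t c : ℝ) * t c))
          ≤ (Q : ℝ) ^ 2 * ((2 / b) ^ J / ∏ c ∈ range J, (t c : ℝ)) := by gcongr
        _ = ((Q : ℝ) ^ 2 * (2 / b) ^ J) * (1 / ∏ c ∈ range J, (t c : ℝ)) := by ring
        _ ≤ ((b : ℝ) ^ (η * J) * (Q : ℝ) ^ (1 - γ)) * (K / (b : ℝ) ^ (η * J)) :=
            mul_le_mul h4 h3 (by positivity) (by positivity)
        _ = K * (Q : ℝ) ^ (1 - γ) := by field_simp
        _ ≤ _ := by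
            apply mul_le_mul_of_nonneg_left _ hK0.le
            exact Real.rpow_le_rpow_of_exponent_le hQ1 (by linarith)
  have hQη : (Q : ℝ) * (Q : ℝ) ^ (-η') * (Q : ℝ) ^ (η' / 2) = (Q : ℝ) ^ (1 - η' / 2) := by
    nth_rewrite 1 [← Real.rpow_one (Q : ℝ)]
    rw [← Real.rpow_add hQ0, ← Real.rpow_add hQ0]
    congr 1
    ring
  have hQη2 : 1 ≤ (Q : ℝ) ^ (η' / 2) := Real.one_le_rpow hQ1 (by positivity)
  have hle : (Q : ℝ) ^ (1 - η' / 2) ≤ (Q : ℝ) ^ (1 - δ) :=
    Real.rpow_le_rpow_of_exponent_le hQ1 (by linarith)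
  have hfirst : 2 * k * lam * Q * (C1 + T) ≤ 2 * k * (C1 + C2) * (Q : ℝ) ^ (1 - η' / 2) := by
    have h1 : C1 + T ≤ (C1 + C2) * (Q : ℝ) ^ (η' / 2) := by
      have : C1 * 1 ≤ C1 * (Q : ℝ) ^ (η' / 2) := mul_le_mul_of_nonneg_left hQη2 hC10.le
      rw [hT]
      linarith
    calc 2 * k * lam * Q * (C1 + T) ≤ 2 * k * lam * Q * ((C1 + C2) * (Q : ℝ) ^ (η' / 2)) :=
          mul_le_mul_of_nonneg_left h1 (by positivity)
      _ = 2 * k * (C1 + C2) * ((Q : ℝ) * lam * (Q : ℝ) ^ (η' / 2)) := by ring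
      _ = _ := by rw [hlam, hQη]
  have hsecond : (12 * ((b : ℝ) ^ 5 + 4) * (Q : ℝ) ^ 2 * ∏ c ∈ range J, (1 / ((sz b t c : ℝ) * t c))) / lam ^ k ≤
      12 * ((b : ℝ) ^ 5 + 4) * K * (Q : ℝ) ^ (1 - η' / 2) := by
    have h1 : (Q : ℝ) ^ (1 - (k + 1) * η') / lam ^ k ≤ (Q : ℝ) ^ (1 - η' / 2) := by
      rw [div_le_iff₀ (by positivity)]
      rw [hlam, ← Real.rpow_natCast, ← Real.rpow_mul hQ0.le, ← Real.rpow_add hQ0]
      apply Real.rpow_le_rpow_of_exponent_le hQ1
      linarith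
    calc (12 * ((b : ℝ) ^ 5 + 4) * (Q : ℝ) ^ 2 * ∏ c ∈ range J, (1 / ((sz b t c : ℝ) * t c))) / lam ^ k
        = 12 * ((b : ℝ) ^ 5 + 4) * (((Q : ℝ) ^ 2 * ∏ c ∈ range J, (1 / ((sz b t c : ℝ) * t c))) / lam ^ k) := by
          ring
      _ ≤ 12 * ((b : ℝ) ^ 5 + 4) * ((K * (Q : ℝ) ^ (1 - (k + 1) * η')) / lam ^ k) := by gcongr
      _ = 12 * ((b : ℝ) ^ 5 + 4) * K * ((Q : ℝ) ^ (1 - (k + 1) * η') / lam ^ k) := by ring
      _ ≤ _ := by gcongr
  calc pts b Q (Fn b t L L) ≤ pts b Q (Fn b t M M) := pts_shrink hML Q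
    _ ≤ (2 * k * (C1 + C2) + 12 * ((b : ℝ) ^ 5 + 4) * K) * (Q : ℝ) ^ (1 - η' / 2) := by
        refine hbig.trans ?_
        linarith
    _ ≤ _ := mul_le_mul_of_nonneg_left hle hpos2

end Pool.Agent.Zk67.NP2.BIG
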