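import Pool.Agent.Zk46.NP2.Defs
import Pool.Agent.H39R3.PB.Basic

/-!
# Basic facts on the products `Fn` (near-palindromes, modules of helper46)
-/

set_option autoImplicit false

namespace Pool.Agent.Zk67.NP2

open Finset Filter Topology Pool.Agent.Helper112 Pool.Agent.Zk46.NP2
open Pool.Agent.W89.PW (fr)
open Pool.Agent.H39R3.PB (ph pts apts ph_nonneg ph_le_one ph_add_int pts_nonneg pts_mono pts_add
  pts_mul_left pts_sum dilate coprime_b)

variable {b : ℕ} {t : ℕ → ℕ}

lemma fa_nonneg (L c : ℕ) (x : ℝ) : 0 ≤ fa b t L c x := mul_nonneg (ph_nonneg _ _) (ph_nonneg _ _)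

lemma fa_le_one (L c : ℕ) (x : ℝ) : fa b t L c x ≤ 1 := mul_le_one₀ (ph_le_one _ _) (ph_nonneg _ _) (ph_le_one _ _)

lemma fa_add_int (L c : ℕ) (x : ℝ) (k : ℤ) : fa b t L c (x + k) = fa b t L c x := by
  unfold fa
  have h1 : (fr b L c : ℝ) * (x + k) = fr b L c * x + ((fr b L c * k : ℤ) : ℝ) := by
    push_cast; ring
  have h2 : (lo b L c : ℝ) * (x + k) = lo b L c * x + ((lo b L c * k : ℤ) : ℝ) := by
    push_cast; ring
  rw [h1, h2, ph_add_int, ph_add_int]

lemma Fn_nonneg (L J : ℕ) (x : ℝ) : 0 ≤ Fn b t L J x := prod_nonneg fun _ _ => fa_nonneg _ _ _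

lemma Fn_le_one (L J : ℕ) (x : ℝ) : Fn b t L J x ≤ 1 :=
  prod_le_one (fun _ _ => fa_nonneg _ _ _) (fun _ _ => fa_le_one _ _ _)

lemma Fn_mono (L : ℕ) {J M : ℕ} (h : J ≤ M) (x : ℝ) : Fn b t L M x ≤ Fn b t L J x := by
  obtain ⟨K, rfl⟩ := Nat.exists_eq_add_of_le h
  unfold Fn
  rw [prod_range_add]
  exact mul_le_of_le_one_right (prod_nonneg fun _ _ => fa_nonneg _ _ _)
    (prod_le_one (fun _ _ => fa_nonneg _ _ _) (fun _ _ => fa_le_one _ _ _))

lemma Fn_add_int (L J : ℕ) (x : ℝ) (k : ℤ) : Fn b t L J (x + k) = Fn b t L J x := by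
  unfold Fn
  exact prod_congr rfl fun j _ => fa_add_int _ _ _ _

lemma fr_scale' {L M c : ℕ} (hM : M ≤ L) (hc : c ≤ M) : fr b L c = b ^ (L - M) * fr b M c := by
  unfold fr
  rw [mul_add, ← pow_add, ← pow_add]
  congr 2 <;> omega

lemma lo_scale' {L M c : ℕ} (hM : M ≤ L) (hc : c ≤ M) : lo b L c = b ^ (L - M) * lo b M c := by
  unfold lo
  rw [mul_left_comm, ← pow_add]
  congr 2
  omega

lemma fa_scale {L M c : ℕ} (hM : M ≤ L) (hc : c ≤ M) (x : ℝ) :
    fa b t L c x = fa b t M c ((b : ℝ) ^ (L - M) * x) := by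
  unfold fa
  rw [fr_scale' hM hc, lo_scale' hM hc]
  push_cast
  congr 2 <;> ring

lemma Fn_scale {L M : ℕ} (hM : M ≤ L) {J : ℕ} (hJ : J ≤ M) (x : ℝ) :
    Fn b t L J x = Fn b t M J ((b : ℝ) ^ (L - M) * x) := by
  unfold Fn
  apply prod_congr rfl
  intro j hj
  rw [mem_range] at hj
  exact fa_scale hM (by omega) x

/-- replacing `L` by a smaller `M` -/
lemma pts_shrink {L M : ℕ} (hM : M ≤ L) (Q : ℕ) :
    pts b Q (Fn b t L L) ≤ pts b Q (Fn b t M M) := by
  calc pts b Q (Fn b t L L) ≤ pts b Q (Fn b t L M) := pts_mono (Fn_mono L hM)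
    _ = pts b Q (fun α => Fn b t M M ((b : ℝ) ^ (L - M) * α)) := by
        congr 1
        funext α
        exact Fn_scale hM le_rfl α
    _ = pts b Q (Fn b t M M) := by
        unfold pts
        apply sum_congr rfl
        intro q hq
        rw [mem_filter] at hq
        exact dilate (coprime_b hq.2) (L - M) (Fn b t M M) (Fn_add_int M M)

/-- the indices outside the block number `i` -/
def SS (L J K i : ℕ) : Finset ℕ := (range L).filter (fun c => ¬ (c < J ∧ c / K = i))

lemma SS_sub (L J K i : ℕ) : SS L J K i ⊆ range L := filter_subset _ _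

/-- the block number `i` -/
def BB (L J K i : ℕ) : Finset ℕ := (range L).filter (fun c => c < J ∧ c / K = i)

lemma card_BB (L J K i : ℕ) (hK : 0 < K) : (BB L J K i).card ≤ K := by
  unfold BB
  calc ((range L).filter (fun c => c < J ∧ c / K = i)).card ≤ (Ico (i * K) (i * K + K)).card := by
        apply card_le_card
        intro c hc
        rw [mem_filter] at hc
        rw [mem_Ico]
        have h2 := Nat.div_add_mod c K
        have h3 := Nat.mod_lt c hK
        rw [hc.2.2] at h2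
        have h4 : i * K = K * i := mul_comm _ _
        constructor
        · omega
        · omega
    _ = K := by simp

lemma BB_mul_SS (L J K i : ℕ) (f : ℕ → ℝ) :
    (∏ c ∈ BB L J K i, f c) * ∏ c ∈ SS L J K i, f c = ∏ c ∈ range L, f c :=
  prod_filter_mul_prod_filter_not (range L) (fun c => c < J ∧ c / K = i) f

lemma card_SS (L J K i : ℕ) (hK : 0 < K) : L - K ≤ (SS L J K i).card := by
  have h1 := card_BB L J K i hK
  have h2 := card_filter_add_card_filter_not (s := range L) (fun c => c < J ∧ c / K = i)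
  rw [card_range] at h2
  unfold BB at h1
  unfold SS
  omega

/-- pointwise splitting -/
theorem split' (L J k K : ℕ) (lam : ℝ) (h0 : 0 < lam) (hJ : J ≤ k * K) (hJL : J ≤ L) (α : ℝ) :
    Fn b t L L α ≤ (∑ i ∈ range k, lam * ∏ c ∈ SS L J K i, fa b t L c α) +
      (lam ^ k)⁻¹ * Fn b t L J α ^ 2 := by
  set x : ℕ → ℝ := fun i => ∏ c ∈ BB L J K i, fa b t L c α with hx
  have hx0 : ∀ i, 0 ≤ x i := fun i => prod_nonneg fun _ _ => fa_nonneg _ _ _
  have hnn : ∀ i ∈ range k, 0 ≤ lam * ∏ c ∈ SS L J K i, fa b t L c α :=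
    fun i _ => mul_nonneg h0.le (prod_nonneg fun _ _ => fa_nonneg _ _ _)
  have hlast : 0 ≤ (lam ^ k)⁻¹ * Fn b t L J α ^ 2 := by
    have := Fn_nonneg (b := b) (t := t) L J α
    positivity
  by_cases hc : ∃ i ∈ range k, x i ≤ lam
  · obtain ⟨i, hi, hxi⟩ := hc
    have e1 : Fn b t L L α = x i * ∏ c ∈ SS L J K i, fa b t L c α := by
      rw [hx]
      exact (BB_mul_SS L J K i _).symm
    have e2 : Fn b t L L α ≤ lam * ∏ c ∈ SS L J K i, fa b t L c α := by
      rw [e1]
      exact mul_le_mul_of_nonneg_right hxi (prod_nonneg fun _ _ => fa_nonneg _ _ _)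
    have e3 := single_le_sum hnn hi
    linarith
  · push Not at hc
    have e1 : Fn b t L J α = ∏ i ∈ range k, x i := by
      unfold Fn
      have hmaps : ∀ c ∈ range J, c / K ∈ range k := by
        intro c hc
        rw [mem_range] at hc ⊢
        exact Nat.div_lt_of_lt_mul (by rw [mul_comm]; omega)
      rw [← prod_fiberwise_of_maps_to hmaps]
      apply prod_congr rfl
      intro i _
      apply prod_congr _ (fun _ _ => rfl)
      ext c
      simp only [BB, mem_filter, mem_range]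
      constructor
      · rintro ⟨h1, h2⟩
        exact ⟨by omega, h1, h2⟩
      · rintro ⟨_, h1, h2⟩
        exact ⟨h1, h2⟩
    have e2 : lam ^ k ≤ Fn b t L J α := by
      rw [e1]
      calc lam ^ k = ∏ i ∈ range k, lam := by simp
        _ ≤ ∏ i ∈ range k, x i := prod_le_prod (fun _ _ => h0.le) (fun i hi => (hc i hi).le)
    have e3 : Fn b t L L α ≤ Fn b t L J α := Fn_mono L hJL α
    set y := Fn b t L J α with hy
    have hlk : 0 < lam ^ k := by positivity
    have hy0 : 0 < y := hlk.trans_le e2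
    have e4 : y ≤ (lam ^ k)⁻¹ * y ^ 2 := by
      rw [inv_mul_eq_div, le_div_iff₀ (by positivity)]
      calc y * lam ^ k ≤ y * y := by gcongr
        _ = y ^ 2 := by ring
    have e6 := sum_nonneg hnn
    linarith

/-- the size of the first factor of a pair -/
lemma sz_ge (hok : Ok b t) (c : ℕ) : (b : ℝ) / 2 ≤ sz b t c := by
  have h := (hok c).2
  have h1 : b ≤ 2 * sz b t c := by unfold sz; omega
  have h2 : (b : ℝ) ≤ 2 * sz b t c := by exact_mod_cast h1
  linarith

/-- the product of the second moments -/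
lemma prod_sz_le (hb : 1 ≤ b) (hok : Ok b t) (J : ℕ) :
    ∏ c ∈ range J, (1 / ((sz b t c : ℝ) * t c)) ≤ (2 / b) ^ J / ∏ c ∈ range J, (t c : ℝ) := by
  have hb0 : (0 : ℝ) < b := by exact_mod_cast hb
  have ht : ∀ c, (0 : ℝ) < t c := fun c => by exact_mod_cast (hok c).1
  calc ∏ c ∈ range J, (1 / ((sz b t c : ℝ) * t c)) ≤ ∏ c ∈ range J, ((2 / b) / (t c : ℝ)) := by
        apply Finset.prod_le_prod
        · intro c _
          have := sz_ge hok c
          have := ht c
          positivity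
        · intro c _
          have h1 := sz_ge hok c
          have h2 := ht c
          have h3 : (0 : ℝ) < sz b t c := by
            have : (0 : ℝ) < b / 2 := by positivity
            linarith
          have h4 : (2 : ℝ) / b / t c = 1 / (b / 2 * t c) := by field_simp
          rw [h4]
          apply one_div_le_one_div_of_le
          · positivity
          · gcongr
    _ = _ := by rw [prod_div_distrib, prod_const, card_range]

/-- the product of the means -/
lemma prod_mean (J : ℕ) : ∏ c ∈ range J, (CC b / (b * t c)) = (CC b / b) ^ J / ∏ c ∈ range J, (t c : ℝ) := by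
  rw [← card_range J, ← prod_const, card_range, ← prod_div_distrib]
  apply prod_congr rfl
  intro c _
  rw [div_div]

lemma one_le_CC (_hb : 1 ≤ b) : 1 ≤ CC b := by
  unfold CC
  have : 0 ≤ Real.log b := Real.log_natCast_nonneg b
  nlinarith

/-- every mean is at least `1 / b ^ 2` -/
lemma mean_ge (hb : 1 ≤ b) (hok : Ok b t) (c : ℕ) : 1 / (b : ℝ) ^ 2 ≤ CC b / (b * t c) := by
  have hb0 : (0 : ℝ) < b := by exact_mod_cast hb
  have ht : (0 : ℝ) < t c := by exact_mod_cast (hok c).1
  have ht2 : (t c : ℝ) ≤ b := by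
    have := (hok c).2
    exact_mod_cast (by omega : t c ≤ b)
  rw [div_le_div_iff₀ (by positivity) (by positivity)]
  have h1 := one_le_CC hb
  calc 1 * ((b : ℝ) * t c) ≤ 1 * ((b : ℝ) * b) := by gcongr
    _ = 1 * (b : ℝ) ^ 2 := by ring
    _ ≤ CC b * (b : ℝ) ^ 2 := by gcongr

/-- every mean is at most `CC b / b` -/
lemma mean_le (hb : 1 ≤ b) (hok : Ok b t) (c : ℕ) : CC b / (b * t c) ≤ CC b / b := by
  have hb0 : (0 : ℝ) < b := by exact_mod_cast hb
  have ht : (1 : ℝ) ≤ t c := by exact_mod_cast (hok c).1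
  have h1 := one_le_CC hb
  apply div_le_div_of_nonneg_left (by linarith) hb0
  nlinarith

/-- the products over the complement of a block, many pairs -/
lemma prod_SS_many (hb : 1 ≤ b) (hok : Ok b t) (hsq : CC b ^ 2 ≤ b) (M J K i n : ℕ) (hK : 0 < K)
    (hn : 2 * n ≤ M - K) : ∏ c ∈ SS M J K i, (CC b / (b * t c)) ≤ 1 / (b : ℝ) ^ n := by
  have hb0 : (0 : ℝ) < b := by exact_mod_cast hb
  have h1 := one_le_CC hb
  have hH0 : 0 ≤ CC b / b := by positivity
  have hH1 : CC b / b ≤ 1 := by
    rw [div_le_one hb0]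
    nlinarith
  calc ∏ c ∈ SS M J K i, (CC b / (b * t c)) ≤ ∏ c ∈ SS M J K i, (CC b / b) := by
        apply Finset.prod_le_prod
        · intro c _
          have : (0 : ℝ) < t c := by exact_mod_cast (hok c).1
          positivity
        · intro c _
          exact mean_le hb hok c
    _ = (CC b / b) ^ (SS M J K i).card := by rw [prod_const]
    _ ≤ (CC b / b) ^ (2 * n) := pow_le_pow_of_le_one hH0 hH1 (hn.trans (card_SS M J K i hK))
    _ = (CC b ^ 2 / b ^ 2) ^ n := by rw [pow_mul, div_pow]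
    _ ≤ (1 / b) ^ n := by
        apply pow_le_pow_left₀ (by positivity)
        rw [div_le_div_iff₀ (by positivity) hb0]
        nlinarith
    _ = _ := by rw [div_pow, one_pow]

/-- the products over the complement of a block, in terms of the product over all pairs -/
lemma prod_SS_all (hb : 1 ≤ b) (hok : Ok b t) (M J K i : ℕ) (hK : 0 < K) :
    ∏ c ∈ SS M J K i, (CC b / (b * t c)) ≤ (b : ℝ) ^ (2 * K) * ((CC b / b) ^ M / ∏ c ∈ range M, (t c : ℝ)) := by
  have hb0 : (0 : ℝ) < b := by exact_mod_cast hb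
  have hb1 : (1 : ℝ) ≤ b := by exact_mod_cast hb
  have h1 := one_le_CC hb
  have hpos : ∀ c, 0 < CC b / (b * t c) := by
    intro c
    have : (0 : ℝ) < t c := by exact_mod_cast (hok c).1
    positivity
  rw [← prod_mean, ← BB_mul_SS M J K i]
  have h2 : (1 / (b : ℝ) ^ 2) ^ K ≤ ∏ c ∈ BB M J K i, (CC b / (b * t c)) := by
    calc (1 / (b : ℝ) ^ 2) ^ K ≤ (1 / (b : ℝ) ^ 2) ^ (BB M J K i).card := by
          apply pow_le_pow_of_le_one (by positivity) _ (card_BB M J K i hK)
          rw [div_le_one (by positivity)]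
          nlinarith
      _ = ∏ c ∈ BB M J K i, (1 / (b : ℝ) ^ 2) := by rw [prod_const]
      _ ≤ _ := Finset.prod_le_prod (fun _ _ => by positivity) (fun c _ => mean_ge hb hok c)
  have h3 : 1 ≤ (b : ℝ) ^ (2 * K) * ∏ c ∈ BB M J K i, (CC b / (b * t c)) := by
    calc (1 : ℝ) = (b : ℝ) ^ (2 * K) * (1 / (b : ℝ) ^ 2) ^ K := by
          rw [pow_mul, ← mul_pow]
          rw [mul_one_div_cancel (by positivity), one_pow]
      _ ≤ _ := by gcongr
  have h4 : 0 ≤ ∏ c ∈ SS M J K i, (CC b / (b * t c)) := prod_nonneg fun c _ => (hpos c).le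
  rw [← mul_assoc]
  exact le_mul_of_one_le_left h4 h3

end Pool.Agent.Zk67.NP2
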